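import Pool.Agent.V5helper10.GK.Stm
import Pool.Agent.V5helper77.KSC.Gb

/-!
# Project GK, job SCAL: the matrices `HodgeEnd` are scalars
-/

set_option linter.unusedSectionVars false

open CategoryTheory AlgebraicGeometry TensorProduct

universe u

namespace Pool.Agent.V5helper86.GK

open Module Matrix
open Pool.Agent.H914 Pool.Agent.H914.VarClass Pool.Agent.H914.VarClass.Obj
  Pool.Agent.H914.WeilCohomology
open Pool.Agent.Y133.Half Pool.Agent.Y121.AH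
open Pool.Agent.N996.BP Pool.Agent.N996.BP.Geo
open Pool.Agent.V5helper10.KSC Pool.Agent.V5helper10.GK
open Pool.Agent.W544.K3 (K3Type bil app cj)
open Pool.Agent.V5helper77.KSC (cup_tmul Fx_gr Fx_range cup_Fx)
open Pool.Agent.N996.FP (crd_gr)

/-! ### linear algebra -/

section lin

variable {r : ℕ}

lemma app_smul (Q : Matrix (Fin r) (Fin r) ℚ) (c : ℂ) (v : Fin r → ℂ) :
    app Q (c • v) = c • app Q v := by
  funext i
  simp only [app, Pi.smul_apply, smul_eq_mul, Finset.mul_sum]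
  exact Finset.sum_congr rfl fun j _ => by ring

lemma app_zero (Q : Matrix (Fin r) (Fin r) ℚ) : app Q 0 = 0 := by
  funext i
  simp [app]

lemma app_cj (Q : Matrix (Fin r) (Fin r) ℚ) (v : Fin r → ℂ) : app Q (cj v) = cj (app Q v) := by
  funext i
  simp [app, cj, map_sum]

lemma cj_smul (c : ℂ) (v : Fin r → ℂ) : cj (c • v) = (starRingEnd ℂ) c • cj v := by
  funext i
  simp [cj]

lemma bil_comm {B : Matrix (Fin r) (Fin r) ℚ} (h : ∀ i j, B i j = B j i) (u v : Fin r → ℂ) :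
    bil B u v = bil B v u := by
  unfold Pool.Agent.W544.K3.bil
  rw [Finset.sum_comm]
  refine Finset.sum_congr rfl fun i _ => Finset.sum_congr rfl fun j _ => ?_
  rw [h j i]
  ring

end lin

variable {k : Type u} [Field k] {𝒱 : VarClass k} {ops : CycleOps 𝒱} {T : HodgeTheory ops}
  {X : 𝒱.Obj} {Dv : T.W.H X} {r s : ℕ} (f : Basis (Fin s ⊕ Fin r) T.W.K (T.W.H X))

/-- the vector with the coordinates `w` on the transcendental part -/
noncomputable def EE (w : Fin r → ℂ) : ℂ ⊗[T.W.K] T.W.H X :=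
  ∑ b, (w b) ⊗ₜ[T.W.K] (f (Sum.inr b))

lemma EE_zero : EE f 0 = 0 :=
  Finset.sum_eq_zero fun b _ => by rw [Pi.zero_apply, TensorProduct.zero_tmul]

lemma EE_smul (c : ℂ) (w : Fin r → ℂ) : EE f (c • w) = c • EE f w := by
  rw [EE, EE, Finset.smul_sum]
  exact Finset.sum_congr rfl fun b _ => by rw [Pi.smul_apply, TensorProduct.smul_tmul']

lemma crd_mk (x : ℂ ⊗[T.W.K] T.W.H X) : ∑ i, (crd f x i) ⊗ₜ[T.W.K] (f i) = x := by
  conv_rhs => rw [crd_sum f x]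
  exact Finset.sum_congr rfl fun i _ => by
    rw [TensorProduct.smul_tmul', smul_eq_mul, mul_one]

lemma sum_inr (c : ℂ) (w : Fin r → ℂ) :
    ∑ i, ((c • Sum.elim (fun _ => 0) w : Fin s ⊕ Fin r → ℂ) i) ⊗ₜ[T.W.K] (f i) =
      c • EE f w := by
  rw [Fintype.sum_sum_type, ← EE_smul, EE, Finset.sum_eq_zero, zero_add]
  · rfl
  · intro i _
    rw [Pi.smul_apply, Sum.elim_inl, smul_zero, TensorProduct.zero_tmul]

lemma sig_EE (w : Fin r → ℂ) : sig (tauT T) (EE f w) = EE f (cj w) := by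
  rw [EE, EE, map_sum]
  exact Finset.sum_congr rfl fun b _ => by rw [sig_tmul]; rfl

lemma cup_EE {Y : K3Type r}
    (hB : ∀ i j, ((Y.B i j : ℚ) : T.W.K) = T.W.tr X (f (Sum.inr i) * f (Sum.inr j)))
    (w w' : Fin r → ℂ) : (cupF T.W X).baseChange ℂ (EE f w) (EE f w') = bil Y.B w w' := by
  unfold Pool.Agent.W544.K3.bil
  have h1 : (cupF T.W X).baseChange ℂ (∑ b, (w b) ⊗ₜ[T.W.K] (f (Sum.inr b))) =
      ∑ b, (cupF T.W X).baseChange ℂ ((w b) ⊗ₜ[T.W.K] (f (Sum.inr b))) := map_sum _ _ _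
  rw [EE, EE, h1, LinearMap.sum_apply]
  refine Finset.sum_congr rfl fun i _ => ?_
  rw [map_sum]
  refine Finset.sum_congr rfl fun j _ => ?_
  rw [cup_tmul, ← hB, map_ratCast]
  ring

/-! ### the endomorphism -/

/-- the endomorphism with the matrix `Q` on the transcendental part -/
noncomputable def gQ (Q : Matrix (Fin r) (Fin r) ℚ) : T.W.H X →ₗ[T.W.K] T.W.H X :=
  f.constr T.W.K (Sum.elim (fun _ => 0) fun a => ∑ b, ((Q b a : ℚ) : T.W.K) • f (Sum.inr b))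

lemma gQ_inl (Q : Matrix (Fin r) (Fin r) ℚ) (i : Fin s) : gQ f Q (f (Sum.inl i)) = 0 := by
  rw [gQ, Basis.constr_basis]
  rfl

lemma gQ_inr (Q : Matrix (Fin r) (Fin r) ℚ) (a : Fin r) :
    gQ f Q (f (Sum.inr a)) = ∑ b, ((Q b a : ℚ) : T.W.K) • f (Sum.inr b) := by
  rw [gQ, Basis.constr_basis]
  rfl

lemma gQ_base (Q : Matrix (Fin r) (Fin r) ℚ) (v : Fin s ⊕ Fin r → ℂ) :
    (gQ f Q).baseChange ℂ (∑ i, (v i) ⊗ₜ[T.W.K] (f i)) = EE f (app Q (v ∘ Sum.inr)) := by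
  rw [map_sum, Fintype.sum_sum_type, Finset.sum_eq_zero, zero_add]
  · have h1 : ∀ a : Fin r, (gQ f Q).baseChange ℂ ((v (Sum.inr a)) ⊗ₜ[T.W.K] (f (Sum.inr a))) =
        ∑ b, ((Q b a : ℂ) * v (Sum.inr a)) ⊗ₜ[T.W.K] (f (Sum.inr b)) := by
      intro a
      rw [LinearMap.baseChange_tmul, gQ_inr, TensorProduct.tmul_sum]
      refine Finset.sum_congr rfl fun b _ => ?_
      rw [← TensorProduct.smul_tmul, Algebra.smul_def, map_ratCast]
    rw [Finset.sum_congr rfl fun a _ => h1 a, Finset.sum_comm, EE]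
    refine Finset.sum_congr rfl fun b _ => ?_
    rw [app, TensorProduct.sum_tmul]
    rfl
  · intro i _
    rw [LinearMap.baseChange_tmul, gQ_inl, TensorProduct.tmul_zero]

/-! ### Hodge types -/

section types

variable {f}

lemma mem_sup2 (hK : K3G T X Dv) {c : T.W.H X} (hc : c ∈ T.W.gr X 2) :
    (1 : ℂ) ⊗ₜ[T.W.K] c ∈ (Fx T X (2, 0) ⊔ Fx T X (1, 1)) ⊔ Fx T X (0, 2) := by
  have h1 : (1 : ℂ) ⊗ₜ[T.W.K] c ∈
      (⨆ r : {r : ℤ × ℤ // r.1 + r.2 = ((2 : ℕ) : ℤ)}, Fx T X r.1) := T.dec.span hc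
  have h2 : (⨆ r : {r : ℤ × ℤ // r.1 + r.2 = ((2 : ℕ) : ℤ)}, Fx T X r.1) ≤
      (Fx T X (2, 0) ⊔ Fx T X (1, 1)) ⊔ Fx T X (0, 2) := by
    refine iSup_le ?_
    rintro ⟨⟨a, b⟩, hr⟩ x hx
    change x ∈ Fx T X (a, b) at hx
    by_cases h0 : x = 0
    · rw [h0]; exact Submodule.zero_mem _
    · obtain ⟨h2, h3, h4, h5⟩ := Fx_range hK hx h0
      have hr' : a + b = ((2 : ℕ) : ℤ) := hr
      rcases (show a = 0 ∨ a = 1 ∨ a = 2 by omega) with rfl | rfl | rfl
      · obtain rfl : b = 2 := by omega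
        exact Submodule.mem_sup_right hx
      · obtain rfl : b = 1 := by omega
        exact Submodule.mem_sup_left (Submodule.mem_sup_right hx)
      · obtain rfl : b = 0 := by omega
        exact Submodule.mem_sup_left (Submodule.mem_sup_left hx)
  exact h2 h1

lemma EE_mem (hK : K3G T X Dv) (hT : ∀ a, f (Sum.inr a) ∈ TrA T X) (w : Fin r → ℂ) :
    EE f w ∈ (Fx T X (2, 0) ⊔ Fx T X (1, 1)) ⊔ Fx T X (0, 2) := by
  rw [EE]
  refine Submodule.sum_mem _ fun b _ => ?_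
  have h1 := Submodule.smul_mem _ (w b) (mem_sup2 hK (hT b).1)
  rwa [TensorProduct.smul_tmul', smul_eq_mul, mul_one] at h1

variable (hTYP : S_TYP.{u}) (hK : K3G T X Dv) {cod : Fin s → ℕ}
  (hH : ∀ i, IsHodge T X (cod i) (f (Sum.inl i))) (hT : ∀ a, f (Sum.inr a) ∈ TrA T X)
  (hort : ∀ i a, T.W.tr X (f (Sum.inl i) * f (Sum.inr a)) = 0) {Y : K3Type r}
  (hB : ∀ i j, ((Y.B i j : ℚ) : T.W.K) = T.W.tr X (f (Sum.inr i) * f (Sum.inr j)))
  (hω : EE f Y.ω ∈ Fx T X (2, 0))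

include hK hω in
lemma EE_cj : EE f (cj Y.ω) ∈ Fx T X (0, 2) := by
  rw [← sig_EE]
  exact hK.cnj 2 0 _ hω

include hTYP hK hH hT hort hB hω

lemma typ {p q : ℤ} {x : ℂ ⊗[T.W.K] T.W.H X} (hx : x ∈ Fx T X (p, q)) :
    crd f x = 0 ∨ (p = 2 ∧ q = 0 ∧ ∃ c : ℂ, crd f x = c • Sum.elim (fun _ => 0) Y.ω) ∨
    (p = 0 ∧ q = 2 ∧ ∃ c : ℂ, crd f x = c • Sum.elim (fun _ => 0) (cj Y.ω)) ∨
    (p = q ∧ bil Y.B (crd f x ∘ Sum.inr) Y.ω = 0 ∧
      bil Y.B (crd f x ∘ Sum.inr) (cj Y.ω) = 0) :=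
  hTYP T X Dv hK f cod hH hT hort Y hB hω p q (crd f x) (by rw [crd_mk]; exact hx)

lemma mem20 {x : ℂ ⊗[T.W.K] T.W.H X} (hx : x ∈ Fx T X (2, 0)) : ∃ c : ℂ, x = c • EE f Y.ω := by
  rcases typ hTYP hK hH hT hort hB hω hx with h | ⟨-, -, c, h⟩ | ⟨h, -, -⟩ | ⟨h, -, -⟩
  · refine ⟨0, ?_⟩
    rw [zero_smul]
    apply crd_inj f
    rw [h, crd_zero]
  · refine ⟨c, ?_⟩
    rw [← sum_inr, ← h, crd_mk]
  · exact absurd h (by norm_num)
  · exact absurd h (by norm_num)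

lemma mem02 {x : ℂ ⊗[T.W.K] T.W.H X} (hx : x ∈ Fx T X (0, 2)) :
    ∃ c : ℂ, x = c • EE f (cj Y.ω) := by
  rcases typ hTYP hK hH hT hort hB hω hx with h | ⟨h, -, -⟩ | ⟨-, -, c, h⟩ | ⟨h, -, -⟩
  · refine ⟨0, ?_⟩
    rw [zero_smul]
    apply crd_inj f
    rw [h, crd_zero]
  · exact absurd h (by norm_num)
  · refine ⟨c, ?_⟩
    rw [← sum_inr, ← h, crd_mk]
  · exact absurd h (by norm_num)

/-- the vectors orthogonal to the two-form and its conjugate are of type `(1, 1)` -/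
lemma mem11 {w : Fin r → ℂ} (h1 : bil Y.B w Y.ω = 0) (h2 : bil Y.B w (cj Y.ω) = 0) :
    EE f w ∈ Fx T X (1, 1) := by
  obtain ⟨ab, hab, c, hc, hy⟩ := Submodule.mem_sup.1 (EE_mem hK hT w)
  obtain ⟨a, ha, b, hb, rfl⟩ := Submodule.mem_sup.1 hab
  obtain ⟨α, rfl⟩ := mem20 hTYP hK hH hT hort hB hω ha
  obtain ⟨β, rfl⟩ := mem02 hTYP hK hH hT hort hB hω hc
  have h02 := EE_cj hK hω
  have hne : bil Y.B Y.ω (cj Y.ω) ≠ 0 := by
    intro h
    have := Y.pos
    rw [h, Complex.zero_re] at this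
    exact lt_irrefl _ this
  have e1 : α = 0 := by
    have e2 := cup_EE f hB w (cj Y.ω)
    rw [h2, ← hy, map_add, map_add, LinearMap.add_apply, LinearMap.add_apply,
      cup_Fx hK hb h02 (by norm_num), cup_Fx hK hc h02 (by norm_num), add_zero, add_zero, map_smul,
      LinearMap.smul_apply, smul_eq_mul, cup_EE f hB] at e2
    exact (mul_eq_zero.1 e2).resolve_right hne
  have e2 : β = 0 := by
    have e2 := cup_EE f hB w Y.ω
    rw [h1, ← hy, map_add, map_add, LinearMap.add_apply, LinearMap.add_apply,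
      cup_Fx hK ha hω (by norm_num), cup_Fx hK hb hω (by norm_num), zero_add, zero_add, map_smul,
      LinearMap.smul_apply, smul_eq_mul, cup_EE f hB, bil_comm Y.symm] at e2
    exact (mul_eq_zero.1 e2).resolve_right hne
  rw [← hy, e1, e2, zero_smul, zero_smul, zero_add, add_zero]
  exact hb

lemma gQ_end {Q : Matrix (Fin r) (Fin r) ℚ} (hQ : Y.HodgeEnd Q) : EndHS T X (gQ f Q) := by
  intro p q x hx
  obtain ⟨⟨c', hc'⟩, hQ2⟩ := hQ
  have h02 := EE_cj hK hω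
  have hg : (gQ f Q).baseChange ℂ x = EE f (app Q (crd f x ∘ Sum.inr)) := by
    conv_lhs => rw [← crd_mk f x]
    exact gQ_base f Q _
  rw [hg]
  rcases typ hTYP hK hH hT hort hB hω hx with h | ⟨rfl, rfl, c, h⟩ | ⟨rfl, rfl, c, h⟩ |
    ⟨rfl, h1, h2⟩
  · rw [h]
    have : (0 : Fin s ⊕ Fin r → ℂ) ∘ Sum.inr = 0 := rfl
    rw [this, app_zero, EE_zero]
    exact Submodule.zero_mem _
  · rw [h]
    have : (c • Sum.elim (fun _ => 0) Y.ω : Fin s ⊕ Fin r → ℂ) ∘ Sum.inr = c • Y.ω := rfl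
    rw [this, app_smul, hc', EE_smul, EE_smul]
    exact Submodule.smul_mem _ _ (Submodule.smul_mem _ _ hω)
  · rw [h]
    have : (c • Sum.elim (fun _ => 0) (cj Y.ω) : Fin s ⊕ Fin r → ℂ) ∘ Sum.inr = c • cj Y.ω := rfl
    rw [this, app_smul, app_cj, hc', cj_smul, EE_smul, EE_smul]
    exact Submodule.smul_mem _ _ (Submodule.smul_mem _ _ h02)
  · by_cases hp : p = 1
    · subst hp
      obtain ⟨h3, h4⟩ := hQ2 _ h1 h2
      exact mem11 hTYP hK hH hT hort hB hω h3 h4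
    · have hw : crd f x ∘ Sum.inr = 0 := by
        by_cases h0 : x = 0
        · rw [h0, crd_zero]
          rfl
        · obtain ⟨h3, h4, -, -⟩ := Fx_range hK hx h0
          obtain ⟨n, hn⟩ : ∃ n : ℕ, p + p = n := ⟨(p + p).toNat, by omega⟩
          have hdeg : ∀ i, f i ∈ T.W.gr X
              ((Sum.elim (fun i => 2 * cod i) fun _ => 2 : Fin s ⊕ Fin r → ℕ) i) := by
            rintro (i | a)
            · exact (hH i).1
            · exact (hT a).1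
          funext b
          exact crd_gr (T.W.isInternal X) hdeg (Fx_gr hn hx) (j := Sum.inr b)
            (show 2 ≠ n by omega)
      rw [hw, app_zero, EE_zero]
      exact Submodule.zero_mem _

end types

theorem t_SCAL (hTYP : S_TYP.{u}) : S_SCAL.{u} := by
  intro k _ 𝒱 ops T X Dv hK r s f cod hH hT hort Y hB hω hend Q hQ
  have hg := gQ_end hTYP hK hH hT hort hB hω hQ
  have hmem : ∀ x, gQ f Q x ∈ TrA T X := by
    intro x
    rw [gQ, Basis.constr_apply_fintype]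
    refine Submodule.sum_mem _ fun i _ => Submodule.smul_mem _ _ ?_
    rcases i with i | a
    · exact Submodule.zero_mem _
    · exact Submodule.sum_mem _ fun b _ => Submodule.smul_mem _ _ (hT b)
  obtain ⟨c, hc⟩ := hend (gQ f Q) hg hmem (gQ_inl f Q)
  obtain ⟨q, rfl⟩ := T.rat c
  refine ⟨q, ?_⟩
  ext b a
  have h1 := hc _ (hT a)
  rw [gQ_inr] at h1
  have h2 := congrArg (fun y => f.repr y (Sum.inr b)) h1
  have h3 : ((Q b a : ℚ) : T.W.K) = if b = a then (q : T.W.K) else 0 := by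
    simpa [Finsupp.single_apply, Finset.sum_apply', eq_comm] using h2
  have h4 : ((Q b a : ℚ) : T.W.K) = ((if b = a then q else 0 : ℚ) : T.W.K) := by
    rw [h3]
    split_ifs <;> simp
  have h5 : Q b a = if b = a then q else 0 := Rat.cast_injective h4
  rw [h5, Matrix.smul_apply, Matrix.one_apply, smul_eq_mul]
  split_ifs <;> simp

end Pool.Agent.V5helper86.GK
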